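import Pool.Agent.U798.GP.Spec
import Pool.Agent.U894.BV.DAV

/-! Project GQ, package DAV2 (helper329): Davenport's estimate for the frequencies prime to `B`, after
`Pool/Agent/U894/BV/DAV.lean` of helper894. -/

set_option autoImplicit false

open Finset
open Pool.Agent.H807R2.Dav
open Pool.Agent.H373R2.T7 (muR muR_abs orth)
open Pool.Agent.U798.MN (saw wt dig ser tgt term ser_limit abs_saw_le)
open Pool.Agent.U798.OP (saw_mult)
open Pool.Agent.U894.BV (sum_mult sum_ee)
open Pool.Agent.U798.GP (Sm)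
open scoped Real

namespace Pool.Agent.U329.GP

/-- the part of the sawtooth function with frequencies prime to `B` -/
noncomputable def VB (B : ℕ) (t : ℝ) : ℝ := ∑ e ∈ B.divisors, muR e / e * saw (e * t)

lemma mu_sum (B m : ℕ) (hB : 1 ≤ B) :
    ∑ e ∈ B.divisors, (if e ∣ m then muR e else 0) = if Nat.Coprime m B then 1 else 0 := by
  rw [← sum_filter]
  have h : B.divisors.filter (fun e => e ∣ m) = (Nat.gcd m B).divisors := by
    ext e
    simp only [mem_filter, Nat.mem_divisors]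
    constructor
    · rintro ⟨⟨h1, h2⟩, h3⟩
      exact ⟨Nat.dvd_gcd h3 h1, (Nat.gcd_pos_of_pos_right _ hB).ne'⟩
    · rintro ⟨h1, _⟩
      exact ⟨⟨h1.trans (Nat.gcd_dvd_right _ _), by omega⟩, h1.trans (Nat.gcd_dvd_left _ _)⟩
  rw [h]
  have h3 : ((ArithmeticFunction.moebius * ArithmeticFunction.zeta : ArithmeticFunction ℤ))
      (Nat.gcd m B) = if Nat.gcd m B = 1 then 1 else 0 := by
    rw [ArithmeticFunction.moebius_mul_coe_zeta, ArithmeticFunction.one_apply]
  rw [ArithmeticFunction.coe_mul_zeta_apply] at h3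
  have h4 : ∑ e ∈ (Nat.gcd m B).divisors, muR e =
      ((∑ e ∈ (Nat.gcd m B).divisors, ArithmeticFunction.moebius e : ℤ) : ℝ) := by
    unfold muR
    push_cast
    rfl
  rw [h4, h3]
  unfold Nat.Coprime
  split_ifs <;> simp

lemma chi_nat (B m : ℕ) (hB : 1 ≤ B) :
    (1 : DirichletCharacter ℂ B) (m : ZMod B) =
      ∑ e ∈ B.divisors, (if e ∣ m then ((muR e : ℝ) : ℂ) else 0) := by
  have h2 : ∑ e ∈ B.divisors, (if e ∣ m then ((muR e : ℝ) : ℂ) else 0) =
      ((∑ e ∈ B.divisors, (if e ∣ m then muR e else 0) : ℝ) : ℂ) := by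
    rw [Complex.ofReal_sum]
    refine sum_congr rfl fun e _ => ?_
    by_cases he : e ∣ m
    · rw [if_pos he, if_pos he]
    · rw [if_neg he, if_neg he, Complex.ofReal_zero]
  rw [h2, mu_sum B m hB]
  by_cases hc : Nat.Coprime m B
  · rw [if_pos hc, MulChar.one_apply ((ZMod.isUnit_iff_coprime m B).2 hc), Complex.ofReal_one]
  · rw [if_neg hc, MulChar.map_nonunit _ (fun hu => hc ((ZMod.isUnit_iff_coprime m B).1 hu)),
      Complex.ofReal_zero]

/-- the weights -/
noncomputable def wR (B j : ℕ) : ℝ :=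
  -∑ e ∈ B.divisors, muR e / e * (if (B / e) ∣ j then 1 else 0)

lemma wt_eq (B : ℕ) (hB : 1 ≤ B) (j : ℕ) :
    wt (1 : DirichletCharacter ℂ B) j = ((wR B j : ℝ) : ℂ) := by
  have hB0 : (B : ℂ) ≠ 0 := by exact_mod_cast (by omega : B ≠ 0)
  have hB0' : (B : ℝ) ≠ 0 := by exact_mod_cast (by omega : B ≠ 0)
  unfold wt
  set E : ℕ → ℂ := fun m => ee (-((m : ℝ) * j / (B : ℝ))) with hE
  have s0 : ∑ m ∈ range B, (1 : DirichletCharacter ℂ B) (m : ZMod B) * ee (-((m : ℝ) * j / (B : ℝ))) =
      ∑ e ∈ B.divisors, ((muR e : ℝ) : ℂ) * ∑ m ∈ range B, (if e ∣ m then E m else 0) := by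
    simp_rw [chi_nat B _ hB, sum_mul, mul_sum]
    rw [sum_comm]
    refine sum_congr rfl fun e _ => sum_congr rfl fun m _ => ?_
    simp only [hE]
    split_ifs <;> simp
  have s1 : ∀ e ∈ B.divisors, ∑ m ∈ range B, (if e ∣ m then E m else 0) =
      if (B / e) ∣ j then ((B / e : ℕ) : ℂ) else 0 := by
    intro e he
    obtain ⟨N, hN⟩ := (Nat.mem_divisors.1 he).1
    have he0 : 0 < e := Nat.pos_of_mem_divisors he
    have hN0 : 1 ≤ N := by
      rcases Nat.eq_zero_or_pos N with h | h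
      · rw [h, mul_zero] at hN; omega
      · exact h
    have hdiv : B / e = N := by rw [hN]; exact Nat.mul_div_cancel_left N he0
    have he' : (e : ℝ) ≠ 0 := by exact_mod_cast he0.ne'
    have hN' : (N : ℝ) ≠ 0 := by exact_mod_cast (by omega : N ≠ 0)
    have h1 : ∑ m ∈ range B, (if e ∣ m then E m else 0) =
        ∑ m ∈ range (e * N), (if e ∣ m then E m else 0) := by rw [← hN]
    rw [h1, sum_mult e N he0, hdiv, ← sum_ee N hN0 j]
    refine sum_congr rfl fun i _ => ?_
    simp only [hE]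
    congr 2
    rw [hN]
    push_cast
    field_simp
  rw [s0, sum_congr rfl fun e he => by rw [s1 e he]]
  unfold wR
  rw [mul_sum, ← sum_neg_distrib, Complex.ofReal_sum]
  refine sum_congr rfl fun e he => ?_
  obtain ⟨N, hN⟩ := (Nat.mem_divisors.1 he).1
  have he0 : 0 < e := Nat.pos_of_mem_divisors he
  have hdiv : B / e = N := by rw [hN]; exact Nat.mul_div_cancel_left N he0
  have he' : (e : ℂ) ≠ 0 := by exact_mod_cast he0.ne'
  have hN' : (N : ℂ) ≠ 0 := by
    intro h
    apply hB0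
    rw [hN]
    push_cast
    rw [h, mul_zero]
  rw [hdiv, hN]
  push_cast
  split_ifs <;> field_simp <;> simp

lemma dig_eq (B : ℕ) (hB : 1 ≤ B) (t : ℝ) :
    dig (1 : DirichletCharacter ℂ B) t = ((-VB B t : ℝ) : ℂ) := by
  have hB0' : (B : ℝ) ≠ 0 := by exact_mod_cast (by omega : B ≠ 0)
  unfold dig
  simp_rw [wt_eq B hB]
  set G : ℕ → ℝ := fun j => saw (t + j / (B : ℝ)) with hG
  have e0 : ∑ j ∈ range B, ((wR B j : ℝ) : ℂ) * ((saw (t + j / (B : ℝ)) : ℝ) : ℂ) =
      ((∑ j ∈ range B, wR B j * G j : ℝ) : ℂ) := by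
    rw [Complex.ofReal_sum]
    refine sum_congr rfl fun j _ => ?_
    rw [Complex.ofReal_mul]
  rw [e0]
  congr 1
  have s1 : ∀ e ∈ B.divisors, ∑ j ∈ range B, (if (B / e) ∣ j then G j else 0) = saw (e * t) := by
    intro e he
    obtain ⟨N, hN⟩ := (Nat.mem_divisors.1 he).1
    have he0 : 0 < e := Nat.pos_of_mem_divisors he
    have hN0 : 1 ≤ N := by
      rcases Nat.eq_zero_or_pos N with h | h
      · rw [h, mul_zero] at hN; omega
      · exact h
    have hdiv : B / e = N := by rw [hN]; exact Nat.mul_div_cancel_left N he0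
    have he' : (e : ℝ) ≠ 0 := by exact_mod_cast he0.ne'
    have hN' : (N : ℝ) ≠ 0 := by exact_mod_cast (by omega : N ≠ 0)
    have h1 : ∑ m ∈ range B, (if (B / e) ∣ m then G m else 0) =
        ∑ m ∈ range (N * e), (if N ∣ m then G m else 0) := by rw [hdiv, mul_comm, ← hN]
    rw [h1, sum_mult N e hN0, ← saw_mult e he0 t]
    refine sum_congr rfl fun i _ => ?_
    simp only [hG]
    congr 1
    rw [hN]
    push_cast
    field_simp
  unfold wR VB
  simp_rw [neg_mul, sum_neg_distrib, sum_mul]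
  rw [sum_comm]
  congr 1
  refine sum_congr rfl fun e he => ?_
  rw [← s1 e he, mul_sum]
  refine sum_congr rfl fun j _ => ?_
  split_ifs <;> simp

lemma tgt_eq (B : ℕ) (y : ℝ) :
    tgt (1 : DirichletCharacter ℂ B) y = ((Real.sin (2 * π * y) / π : ℝ) : ℂ) := by
  have hpi : (π : ℂ) ≠ 0 := by exact_mod_cast Real.pi_ne_zero
  unfold tgt
  rw [MulChar.one_apply (isUnit_one.neg), one_mul]
  have h := Complex.two_sin ((2 * π * y : ℝ) : ℂ)
  have e1 : ee y = Complex.exp (((2 * π * y : ℝ) : ℂ) * Complex.I) := by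
    unfold ee
    congr 1
    push_cast
    ring
  have e2 : ee (-y) = Complex.exp (-((2 * π * y : ℝ) : ℂ) * Complex.I) := by
    unfold ee
    congr 1
    push_cast
    ring
  rw [e1, e2]
  push_cast at h ⊢
  have h3 : Complex.exp (2 * π * y * Complex.I) - Complex.exp (-(2 * π * y) * Complex.I) =
      2 * Complex.I * Complex.sin (2 * π * y) := by
    have h4 := congrArg (fun z => z * Complex.I) h
    have h5 : (Complex.exp (-(2 * π * y) * Complex.I) - Complex.exp (2 * π * y * Complex.I)) *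
        Complex.I * Complex.I =
        Complex.exp (2 * π * y * Complex.I) - Complex.exp (-(2 * π * y) * Complex.I) := by
      rw [mul_assoc, Complex.I_mul_I]; ring
    rw [h5] at h4
    rw [← h4]; ring
  rw [h3]
  field_simp

/-- Davenport's estimate with the function `VB`. -/
lemma dav_V (B : ℕ) (hB : 1 ≤ B) : ∃ (C : ℝ) (K0 : ℕ), 0 < C ∧ 3 ≤ K0 ∧
    ∀ K : ℕ, K0 ≤ K → ∀ y : ℝ, Irrational y →
      |(∑ k ∈ (Finset.Icc 1 K).filter (fun k => Nat.Coprime k B), muR k / k * VB B (k * y)) +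
        Real.sin (2 * π * y) / π| ≤ C / Real.log K := by
  obtain ⟨C, K0, hC, hK0, h⟩ := ser_limit (b := B) hB (1 : DirichletCharacter ℂ B) 0
  refine ⟨C, K0, hC, hK0, fun K hK y hy => ?_⟩
  have h1 := h K hK y hy
  rw [zero_add, pow_one] at h1
  have e : tgt (1 : DirichletCharacter ℂ B) y - ser (1 : DirichletCharacter ℂ B) K y =
      (((∑ k ∈ (Finset.Icc 1 K).filter (fun k => Nat.Coprime k B), muR k / k * VB B (k * y)) +
        Real.sin (2 * π * y) / π : ℝ) : ℂ) := by
    rw [tgt_eq]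
    have e1 : ser (1 : DirichletCharacter ℂ B) K y =
        -((∑ k ∈ (Finset.Icc 1 K).filter (fun k => Nat.Coprime k B),
          muR k / k * VB B (k * y) : ℝ) : ℂ) := by
      unfold ser
      rw [sum_filter]
      push_cast
      rw [← sum_neg_distrib]
      refine sum_congr rfl fun k _ => ?_
      unfold term
      rw [dig_eq B hB]
      by_cases hk : Nat.Coprime k B
      · rw [if_pos hk, MulChar.one_apply ((ZMod.isUnit_iff_coprime k B).2 hk)]
        push_cast
        ring
      · rw [if_neg hk, MulChar.map_nonunit _ (fun hu => hk ((ZMod.isUnit_iff_coprime k B).1 hu))]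
        simp
    rw [e1]
    push_cast
    ring
  rw [e, Complex.norm_real, Real.norm_eq_abs] at h1
  exact h1

/-- the sum of the inverses of the integers composed of primes dividing `B` -/
lemma summable_Sm (B : ℕ) (hB : 1 ≤ B) : Summable fun s : Sm B => (1 : ℝ) / ((s : ℕ) : ℝ) := by
  have h := (EulerProduct.summable_and_hasSum_factoredNumbers_prod_filter_prime_tsum
    (f := fun n : ℕ => (1 : ℝ) / n) (by simp) (by
      intro m n _
      push_cast
      field_simp) (by
      intro p hp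
      have hp1 : (1 : ℝ) < p := by exact_mod_cast hp.one_lt
      have h1 := summable_geometric_of_lt_one (r := 1 / (p : ℝ)) (by positivity)
        (by rw [div_lt_one (by linarith)]; exact hp1)
      refine h1.congr fun n => ?_
      rw [Real.norm_of_nonneg (by positivity)]
      push_cast
      rw [div_pow, one_pow]) B.primeFactors).1
  have hset : Sm B = Nat.factoredNumbers B.primeFactors := by
    ext s
    simp only [Sm, Set.mem_ofPred_eq, Nat.mem_factoredNumbers]
    constructor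
    · rintro ⟨h1, h2⟩
      refine ⟨by omega, fun p hp => ?_⟩
      have hp1 := Nat.mem_primeFactorsList (by omega : s ≠ 0) |>.1 hp
      exact Nat.mem_primeFactors.2 ⟨hp1.1, h2 p hp1.1 hp1.2, by omega⟩
    · rintro ⟨h1, h2⟩
      refine ⟨by omega, fun l hl hls => ?_⟩
      exact (Nat.mem_primeFactors.1 (h2 l (Nat.mem_primeFactorsList h1 |>.2 ⟨hl, hls⟩))).2.1
  rw [hset]
  refine h.congr fun s => ?_
  rw [Real.norm_of_nonneg (by positivity)]

lemma one_mem_Sm (B : ℕ) : 1 ∈ Sm B :=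
  ⟨le_rfl, fun _ hl h => absurd (Nat.dvd_one.1 h) hl.one_lt.ne'⟩

lemma mul_mem_Sm {B e s : ℕ} (hB : 1 ≤ B) (he : e ∣ B) (hs : s ∈ Sm B) : e * s ∈ Sm B := by
  refine ⟨Nat.one_le_iff_ne_zero.2 (mul_ne_zero ?_ ?_), fun l hl h => ?_⟩
  · rintro rfl
    rw [zero_dvd_iff] at he
    omega
  · have := hs.1; omega
  · rcases (hl.dvd_mul).1 h with h1 | h1
    · exact h1.trans he
    · exact hs.2 l hl h1

lemma cop_Sm {B n : ℕ} (hn : n ∈ Sm B) : Nat.Coprime n B ↔ n = 1 := by
  constructor
  · intro h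
    by_contra hne
    obtain ⟨l, hl, hln⟩ := Nat.exists_prime_and_dvd hne
    exact Nat.Prime.one_lt hl |>.ne' (Nat.eq_one_of_dvd_coprimes h hln (hn.2 l hl hln))
  · rintro rfl
    exact Nat.coprime_one_left B

/-- the sawtooth function as a sum of dilations of `VB` -/
lemma saw_hasSum (B : ℕ) (hB : 1 ≤ B) (z : ℝ) :
    HasSum (fun s : Sm B => VB B (((s : ℕ) : ℝ) * z) / ((s : ℕ) : ℝ)) (saw z) := by
  have hS := summable_Sm B hB
  set F : ℕ → Sm B → ℝ := fun e n => if e ∣ (n : ℕ) then saw ((n : ℕ) * z) / (n : ℕ) else 0 with hF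
  have hFs : ∀ e, Summable (F e) := by
    intro e
    refine Summable.of_norm_bounded hS fun n => ?_
    have hn : (0 : ℝ) < (n : ℕ) := by exact_mod_cast n.2.1
    simp only [hF]
    split_ifs
    · rw [norm_div, Real.norm_eq_abs, Real.norm_of_nonneg hn.le]
      have := abs_saw_le ((n : ℕ) * z)
      gcongr
      linarith
    · rw [norm_zero]; positivity
  have h1 : HasSum (fun n : Sm B => ∑ e ∈ B.divisors, muR e * F e n)
      (∑ e ∈ B.divisors, muR e * ∑' n, F e n) :=
    hasSum_sum fun e _ => (hFs e).hasSum.mul_left _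
  have h2 : (fun n : Sm B => ∑ e ∈ B.divisors, muR e * F e n) =
      fun n : Sm B => if n = ⟨1, one_mem_Sm B⟩ then saw z else 0 := by
    funext n
    have e1 : ∑ e ∈ B.divisors, muR e * F e n =
        (∑ e ∈ B.divisors, (if e ∣ (n : ℕ) then muR e else 0)) * (saw ((n : ℕ) * z) / (n : ℕ)) := by
      rw [sum_mul]
      refine sum_congr rfl fun e _ => ?_
      simp only [hF]
      split_ifs <;> simp
    rw [e1, mu_sum B n hB]
    by_cases hn : (n : ℕ) = 1
    · have hn' : n = ⟨1, one_mem_Sm B⟩ := Subtype.ext hn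
      rw [if_pos ((cop_Sm n.2).2 hn), if_pos hn', hn]
      simp
    · have hn' : n ≠ ⟨1, one_mem_Sm B⟩ := fun h => hn (congrArg Subtype.val h)
      rw [if_neg (fun h => hn ((cop_Sm n.2).1 h)), if_neg hn', zero_mul]
  rw [h2] at h1
  have h3 : ∑ e ∈ B.divisors, muR e * ∑' n, F e n = saw z :=
    h1.unique (hasSum_ite_eq _ _)
  have h4 : ∀ e ∈ B.divisors, HasSum (fun s : Sm B =>
      saw (e * (((s : ℕ) : ℝ) * z)) / (e * ((s : ℕ) : ℝ))) (∑' n, F e n) := by
    intro e he
    have he0 : 0 < e := Nat.pos_of_mem_divisors he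
    set g : Sm B → Sm B := fun s => ⟨e * s, mul_mem_Sm hB (Nat.mem_divisors.1 he).1 s.2⟩ with hg
    have hginj : Function.Injective g := by
      intro a b hab
      have := congrArg Subtype.val hab
      exact Subtype.ext (Nat.eq_of_mul_eq_mul_left he0 this)
    have h5 := (hginj.hasSum_iff (f := F e) (a := ∑' n, F e n) (by
      intro x hx
      simp only [hF]
      rw [if_neg]
      intro hdvd
      obtain ⟨c, hc⟩ := hdvd
      apply hx
      have hcS : c ∈ Sm B := by
        refine ⟨?_, fun l hl hlc => ?_⟩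
        · rcases Nat.eq_zero_or_pos c with h | h
          · rw [h, mul_zero] at hc
            have := x.2.1
            omega
          · exact h
        · exact x.2.2 l hl (hc ▸ hlc.mul_left e)
      exact ⟨⟨c, hcS⟩, Subtype.ext hc.symm⟩)).2 (hFs e).hasSum
    refine h5.congr_fun ?_
    intro s
    simp only [Function.comp_apply, hF, hg]
    rw [if_pos (dvd_mul_right _ _)]
    push_cast
    rw [mul_assoc]
  have h5 := hasSum_sum (s := B.divisors) fun e he => (h4 e he).mul_left (muR e)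
  rw [h3] at h5
  refine h5.congr_fun ?_
  intro s
  unfold VB
  rw [sum_div]
  refine sum_congr rfl fun e he => ?_
  have he0 : (e : ℝ) ≠ 0 := by exact_mod_cast (Nat.pos_of_mem_divisors he).ne'
  have hs0 : ((s : ℕ) : ℝ) ≠ 0 := by
    have := s.2.1
    exact_mod_cast (by omega : (s : ℕ) ≠ 0)
  field_simp

theorem t_DAV2 : Pool.Agent.U798.GP.S_DAV2 := by
  intro B hB2
  have hB : 1 ≤ B := by omega
  obtain ⟨C, K0, hC, hK0, h⟩ := dav_V B hB
  have hS := summable_Sm B hB
  set S : ℝ := ∑' s : Sm B, (1 : ℝ) / ((s : ℕ) : ℝ) with hSd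
  refine ⟨C * S, K0, hK0, fun K hK y hy => ?_⟩
  have h1 : HasSum (fun s : Sm B => ∑ k ∈ (Finset.Icc 1 K).filter (fun k => Nat.Coprime k B),
      muR k / k * (VB B (((s : ℕ) : ℝ) * (k * y)) / ((s : ℕ) : ℝ)))
      (∑ k ∈ (Finset.Icc 1 K).filter (fun k => Nat.Coprime k B), muR k / k * saw (k * y)) :=
    hasSum_sum fun k _ => (saw_hasSum B hB (k * y)).mul_left _
  have hsin : Summable fun s : Sm B => Real.sin (2 * π * (((s : ℕ) : ℝ) * y)) / ((s : ℕ) : ℝ) := by
    refine Summable.of_norm_bounded hS fun s => ?_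
    have hn : (0 : ℝ) < ((s : ℕ) : ℝ) := by exact_mod_cast s.2.1
    rw [norm_div, Real.norm_eq_abs, Real.norm_of_nonneg hn.le]
    have := Real.abs_sin_le_one (2 * π * (((s : ℕ) : ℝ) * y))
    gcongr
  have h2 := h1.add (hsin.hasSum.div_const π)
  have h3 : HasSum (fun s : Sm B => C / Real.log K * (1 / ((s : ℕ) : ℝ))) (C / Real.log K * S) :=
    hS.hasSum.mul_left _
  have h4 := h2.norm_le_of_bounded h3 (by
    intro s
    have hn : (0 : ℝ) < ((s : ℕ) : ℝ) := by exact_mod_cast s.2.1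
    have hs0 : (s : ℕ) ≠ 0 := by have := s.2.1; omega
    have h5 := h K hK (((s : ℕ) : ℝ) * y) (hy.natCast_mul hs0)
    have e : ∑ k ∈ (Finset.Icc 1 K).filter (fun k => Nat.Coprime k B),
        muR k / k * (VB B (((s : ℕ) : ℝ) * (k * y)) / ((s : ℕ) : ℝ)) +
          Real.sin (2 * π * (((s : ℕ) : ℝ) * y)) / ((s : ℕ) : ℝ) / π =
        ((∑ k ∈ (Finset.Icc 1 K).filter (fun k => Nat.Coprime k B),
          muR k / k * VB B (k * (((s : ℕ) : ℝ) * y))) +
          Real.sin (2 * π * (((s : ℕ) : ℝ) * y)) / π) * (1 / ((s : ℕ) : ℝ)) := by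
      rw [add_mul, sum_mul]
      congr 1
      · refine sum_congr rfl fun k _ => ?_
        rw [mul_left_comm ((s : ℕ) : ℝ) (k : ℝ) y]
        ring
      · ring
    rw [Real.norm_eq_abs, e, abs_mul, abs_of_pos (by positivity : 0 < 1 / ((s : ℕ) : ℝ))]
    gcongr)
  rw [Real.norm_eq_abs] at h4
  refine h4.trans (le_of_eq ?_)
  ring

end Pool.Agent.U329.GP
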